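import Pool.Agent.VTP.StmtsW

/-!
WRN: renaming the crossings of a word does not change the coefficient `p_0`.
-/

set_option autoImplicit false

namespace Pool.Agent.VTP.H53

open Finset Pool.Agent.ZOL Pool.Agent.VTP

theorem labels_relab (w : Word) (τ : ℕ → ℕ) : labels (relab τ w) = (labels w).image τ := by
  ext a
  simp [labels, relab]

theorem mem_labels {w : Word} {l : Letter} (h : l ∈ w) : l.1 ∈ labels w := by
  simp only [labels, List.mem_toFinset, List.mem_map]
  exact ⟨l, h, rfl⟩

/-- the first letter -/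
theorem find_relab (τ : ℕ → ℕ) (d : ℕ) (w : Word) (h : ∀ l ∈ w, (τ l.1 = τ d ↔ l.1 = d)) :
    (relab τ w).find? (fun l => decide (l.1 = τ d)) =
      (w.find? (fun l => decide (l.1 = d))).map (fun l => (τ l.1, l.2)) := by
  induction w with
  | nil => rfl
  | cons x w ih =>
    have ih' := ih (fun l hl => h l (List.mem_cons_of_mem _ hl))
    have hx := h x List.mem_cons_self
    have e : relab τ (x :: w) = (τ x.1, x.2) :: relab τ w := rfl
    rw [e]
    by_cases hd : x.1 = d
    · have h1 : τ x.1 = τ d := hx.2 hd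
      rw [List.find?_cons_of_pos (by simpa using h1), List.find?_cons_of_pos (by simpa using hd)]
      rfl
    · have h1 : ¬ τ x.1 = τ d := fun h2 => hd (hx.1 h2)
      rw [List.find?_cons_of_neg (by simpa using h1), List.find?_cons_of_neg (by simpa using hd)]
      exact ih'

theorem fstL_relab (τ : ℕ → ℕ) (d : ℕ) (w : Word) (h : ∀ l ∈ w, (τ l.1 = τ d ↔ l.1 = d)) :
    (fstL (relab τ w) (τ d)).2 = (fstL w d).2 := by
  unfold fstL
  rw [find_relab τ d w h]
  cases w.find? (fun l => decide (l.1 = d)) with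
  | none => rfl
  | some l => rfl

theorem sub_relab (τ : ℕ → ℕ) (c d : ℕ) (w : Word) (hc : ∀ l ∈ w, (τ l.1 = τ c ↔ l.1 = c))
    (hd : ∀ l ∈ w, (τ l.1 = τ d ↔ l.1 = d)) :
    (sub {τ c, τ d} (relab τ w)).map Prod.fst = ((sub {c, d} w).map Prod.fst).map τ := by
  induction w with
  | nil => rfl
  | cons x w ih =>
    have ih' := ih (fun l hl => hc l (List.mem_cons_of_mem _ hl))
      (fun l hl => hd l (List.mem_cons_of_mem _ hl))
    have hxc := hc x List.mem_cons_self
    have hxd := hd x List.mem_cons_self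
    have e : relab τ (x :: w) = (τ x.1, x.2) :: relab τ w := rfl
    rw [e]
    unfold sub at ih' ⊢
    by_cases hx : x.1 ∈ ({c, d} : Finset ℕ)
    · have h1 : τ x.1 ∈ ({τ c, τ d} : Finset ℕ) := by
        simp only [mem_insert, mem_singleton] at hx ⊢
        exact hx.imp hxc.2 hxd.2
      rw [List.filter_cons_of_pos (by simpa using h1), List.filter_cons_of_pos (by simpa using hx),
        List.map_cons, List.map_cons, List.map_cons, ih']
    · have h1 : τ x.1 ∉ ({τ c, τ d} : Finset ℕ) := by
        simp only [mem_insert, mem_singleton] at hx ⊢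
        exact fun h => hx (h.imp hxc.1 hxd.1)
      rw [List.filter_cons_of_neg (by simpa using h1), List.filter_cons_of_neg (by simpa using hx)]
      exact ih'

/-- an injective map on lists -/
theorem map_inj_on {s : Set ℕ} {τ : ℕ → ℕ} (hτ : Set.InjOn τ s) (l l' : List ℕ)
    (h : ∀ x ∈ l, x ∈ s) (h' : ∀ x ∈ l', x ∈ s) : l.map τ = l'.map τ ↔ l = l' := by
  induction l generalizing l' with
  | nil =>
    cases l' with
    | nil => simp
    | cons y l' => simp
  | cons x l ih =>
    cases l' with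
    | nil => simp
    | cons y l' =>
      have h1 := ih l' (fun z hz => h z (List.mem_cons_of_mem _ hz))
        (fun z hz => h' z (List.mem_cons_of_mem _ hz))
      have h2 : τ x = τ y ↔ x = y :=
        hτ.eq_iff (h x List.mem_cons_self) (h' y List.mem_cons_self)
      rw [List.map_cons, List.map_cons, List.cons.injEq, List.cons.injEq, h1, h2]

theorem il_relab (τ : ℕ → ℕ) (w : Word) (hτ : Set.InjOn τ (labels w : Set ℕ)) {c d : ℕ}
    (hc : c ∈ labels w) (hd : d ∈ labels w) : il (relab τ w) (τ c) (τ d) ↔ il w c d := by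
  have e : ∀ {x : ℕ}, x ∈ labels w → ∀ l ∈ w, (τ l.1 = τ x ↔ l.1 = x) := fun hx l hl =>
    hτ.eq_iff (mem_coe.2 (mem_labels hl)) (mem_coe.2 hx)
  unfold il
  rw [sub_relab τ c d w (e hc) (e hd)]
  have hm : ∀ x ∈ (sub {c, d} w).map Prod.fst, x ∈ (labels w : Set ℕ) := by
    intro x hx
    rw [List.mem_map] at hx
    obtain ⟨l, hl, rfl⟩ := hx
    exact mem_coe.2 (mem_labels (List.mem_of_mem_filter hl))
  have h4 : ∀ a b : ℕ, a ∈ labels w → b ∈ labels w →
      (((sub {c, d} w).map Prod.fst).map τ = [τ a, τ b, τ a, τ b] ↔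
        (sub {c, d} w).map Prod.fst = [a, b, a, b]) := by
    intro a b ha hb
    have h5 : ([τ a, τ b, τ a, τ b] : List ℕ) = [a, b, a, b].map τ := rfl
    rw [h5]
    refine map_inj_on hτ _ _ hm ?_
    intro x hx
    simp only [List.mem_cons, List.not_mem_nil, or_false] at hx
    rcases hx with rfl | rfl | rfl | rfl
    · exact ha
    · exact hb
    · exact ha
    · exact hb
  rw [h4 c d hc hd, h4 d c hd hc]

theorem wrn (hpim : PimStmt) : WrnStmt := by
  intro w τ hτ
  have e : ∀ {x : ℕ}, x ∈ labels w → ∀ l ∈ w, (τ l.1 = τ x ↔ l.1 = x) := fun hx l hl =>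
    hτ.eq_iff (mem_coe.2 (mem_labels hl)) (mem_coe.2 hx)
  have h := (hpim (labels w) (sg w) (sg (relab τ w)) (sn w) (sn (relab τ w)) (il w)
    (il (relab τ w)) τ hτ ?_ ?_ ?_).1 (PowerSeries ℤ) qq
  · unfold PW
    rw [labels_relab]
    exact h
  · intro d hd
    have h1 := fstL_relab τ d w (e hd)
    unfold sg eps
    simp only [h1]
  · intro d hd
    have h1 := fstL_relab τ d w (e hd)
    unfold sn sgn
    rw [h1]
  · intro c hc d hd
    exact il_relab τ w hτ hc hd

end Pool.Agent.VTP.H53
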